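import Pool.Agent.X113.LVP3

/-!
# The variance of primes in short intervals is of the conjectured order on average, from below

`∫ X in A..B, f X` is the ordinary integral of `f` over `[A, B]`; `Λ` is `ArithmeticFunction.vonMangoldt`;
`Real.log` is the natural logarithm; `∑ᶠ` is the finite sum over the indicated set of integers.
-/

set_option autoImplicit false

open MeasureTheory

namespace Pool.Agent.Results.MP_2a816b_nt.LogAverageLowerBound

/-- The weighted number of prime powers in the interval of length `H` centred at `x`. -/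
noncomputable def psi (x H : ℝ) : ℝ :=
  ∑ᶠ n ∈ {n : ℕ | 1 ≤ n ∧ x - H / 2 ≤ n ∧ (n : ℝ) ≤ x + H / 2}, ArithmeticFunction.vonMangoldt n

/-- The mean of `|ψ(x;H) - H| ^ 2` over `X ≤ x ≤ 2 X`. -/
noncomputable def V (X H : ℝ) : ℝ := (1 / X) * ∫ x in X..2 * X, |psi x H - H| ^ 2

/-- * For `X ≥ 1` and `H ≥ 0`, `V(X;H)` is at most twice the mean of the problem over `1 ≤ x ≤ 2 X`.
* For all real `a > 1` and `b > a + 1` there are `c > 0` and `T₀` such that for every `T ≥ T₀` the integral of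
  `V(X;H) / H` with respect to `(dX / X) (dH / H)` over the `X` and `H` with `T ^ a ≤ X ≤ T ^ b` and
  `X / (16 T) ≤ H ≤ 4 X / T` is at least `c (log T) ^ 2`. (The measure of this region is `(b - a) log 64 log T`,
  and `log (X / H)` differs from `log T` there by at most `log 16`.) -/
theorem result :
    (∀ X H : ℝ, 1 ≤ X → 0 ≤ H →
      V X H ≤ 2 * ((1 / (2 * X)) * ∫ x in (1 : ℝ)..2 * X, |psi x H - H| ^ 2)) ∧
    ∀ a b : ℝ, 1 < a → a + 1 < b → ∃ c T₀ : ℝ, 0 < c ∧ 1 ≤ T₀ ∧
      ∀ T : ℝ, T₀ ≤ T → c * Real.log T ^ 2 ≤ ∫ X in (T ^ a)..(T ^ b),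
        (∫ H in (X / (16 * T))..(4 * X / T), V X H / H ^ 2) / X :=
  ⟨Pool.Agent.X113.LV.psi_dyadic, Pool.Agent.X113.LV.psi_final⟩

end Pool.Agent.Results.MP_2a816b_nt.LogAverageLowerBound
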