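import Pool.Agent.X83.VP.L18

/-! An unconditional lower bound, with the conjectured constant, for the variance of primes in short
intervals in a long average over scales. -/

open MeasureTheory

namespace Pool.Agent.Results.MP_2a816b_nt.ScaleAverageLowerBound

/-- For every `c > 0` and `ε > 0` and all large `T`, the integral over `x > T` of
`(ψ(x + x/T) - ψ(x) - x/T)² x ^ (-2 - 2c / log T)` is at least
`(1 / (2c) - 1 - ε) (log T)² / T`. No hypothesis is assumed; the integral is a lower Lebesgue integral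
with values in `[0, ∞]`. -/
theorem result : ∀ c : ℝ, 0 < c → ∀ ε : ℝ, 0 < ε → ∃ T₀ : ℝ, ∀ T : ℝ, T₀ ≤ T →
    ENNReal.ofReal ((1 / (2 * c) - 1 - ε) * (Real.log T ^ 2 / T)) ≤
      ∫⁻ x in Set.Ioi T, ENNReal.ofReal
        ((Chebyshev.psi (x + x / T) - Chebyshev.psi x - x / T) ^ 2 *
          x ^ (-(2 + 2 * (c / Real.log T)))) := by
  intro c hc ε hε
  obtain ⟨T₀, h⟩ := Filter.eventually_atTop.1 (Pool.Agent.X83.VP.scale_low2 hc hε)
  exact ⟨T₀, fun T hT => h T hT⟩

end Pool.Agent.Results.MP_2a816b_nt.ScaleAverageLowerBound
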