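import Pool.Agent.X83.VP.L17

/-! Upper bounds alone for the variance of primes in short intervals decide: they imply the Riemann
hypothesis and the asymptotic formula. -/

open MeasureTheory Filter Topology

namespace Pool.Agent.Results.MP_2a816b_nt.UpperBoundsDecide

/-- The normalised mean square over the window `T^a ≤ x ≤ T^b` of the error for the primes in
`(x, x + x/T]`: `(T / (log T)²) ∫ (ψ(x + x/T) - ψ(x) - x/T)² x⁻² dx`. -/
noncomputable def V (T a b : ℝ) : ℝ := T / Real.log T ^ 2 * ∫ x in (T ^ a)..(T ^ b),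
  (Chebyshev.psi (x + x / T) - Chebyshev.psi x - x / T) ^ 2 / x ^ 2

/-- The upper bounds `limsup V(T;a,b) ≤ b - a` for all `1 ≤ a < b` hold if and only if the Riemann
hypothesis is true and `V(T;a,b) → b - a` for all `1 ≤ a < b`. -/
theorem result :
    (∀ a b : ℝ, 1 ≤ a → a < b → ∀ ε : ℝ, 0 < ε → ∃ T₀ : ℝ, ∀ T : ℝ, T₀ ≤ T →
      V T a b ≤ b - a + ε) ↔
    RiemannHypothesis ∧
      ∀ a b : ℝ, 1 ≤ a → a < b → Tendsto (fun T : ℝ => V T a b) atTop (𝓝 (b - a)) := by
  have h := Pool.Agent.X83.VP.upper_decides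
  unfold Pool.Agent.X83.VP.Upper at h
  simp only [eventually_atTop] at h
  exact h

end Pool.Agent.Results.MP_2a816b_nt.UpperBoundsDecide
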